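import Pool.Agent.Work.MP_91aed7_am.Interface

/-!
# GD: global dimension of polynomial rings in one variable
-/

set_option autoImplicit false

namespace Pool.AM.GD_

open CategoryTheory TensorProduct Polynomial

noncomputable section

theorem flat_exact (R A : Type) [CommRing R] [CommRing A] [Algebra R A] [Module.Flat R A]
    (K F M : Type) [AddCommGroup K] [AddCommGroup F] [AddCommGroup M] [Module R K] [Module R F]
    [Module R M] (f : K →ₗ[R] F) (g : F →ₗ[R] M) (h : Function.Exact f g) :
    Function.Exact (f.baseChange A) (g.baseChange A) :=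
  Module.Flat.lTensor_exact (R := R) A h

theorem step (R A : Type) [CommRing R] [CommRing A] [Algebra R A] [Module.Flat R A] (d : ℕ)
    (K F M : Type) [AddCommGroup K] [AddCommGroup F] [AddCommGroup M] [Module R K] [Module R F]
    [Module R M] (f : K →ₗ[R] F) (g : F →ₗ[R] M) (hi : Function.Injective f)
    (hs : Function.Surjective g) (h : Function.Exact f g) (hF : Module.Projective R F)
    (hK : HasProjectiveDimensionLE (ModuleCat.of R K) d →
      HasProjectiveDimensionLE (ModuleCat.of A (A ⊗[R] K)) d)
    (hM : HasProjectiveDimensionLE (ModuleCat.of R M) (d + 1)) :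
    HasProjectiveDimensionLE (ModuleCat.of A (A ⊗[R] M)) (d + 1) := by
  have hc : g.comp f = 0 := h.linearMap_comp_eq_zero
  have hT : (ModuleCat.shortComplexOfCompEqZero f g hc).ShortExact :=
    ModuleCat.shortComplex_shortExact _ h hi hs
  have hp : Projective (ModuleCat.of R F) := by
    rw [← IsProjective.iff_projective]
    exact hF
  have h1 := (hT.hasProjectiveDimensionLT_X₃_iff d hp).mp hM
  have h2 := hK h1
  have hcomp : (g.baseChange A).comp (f.baseChange A) = 0 := by
    rw [← LinearMap.baseChange_comp, hc, LinearMap.baseChange_zero]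
  have hT2 : (ModuleCat.shortComplexOfCompEqZero (f.baseChange A)
      (g.baseChange A) hcomp).ShortExact :=
    ModuleCat.shortComplex_shortExact _ (flat_exact R A K F M f g h)
      (Module.Flat.lTensor_preserves_injective_linearMap (M := A) f hi)
      (LinearMap.lTensor_surjective A hs)
  have hp2 : Projective (ModuleCat.of A (A ⊗[R] F)) := by
    rw [← IsProjective.iff_projective]
    change Module.Projective A (A ⊗[R] F)
    infer_instance
  exact (hT2.hasProjectiveDimensionLT_X₃_iff d hp2).mpr h2

theorem bc (R A : Type) [CommRing R] [CommRing A] [Algebra R A] [Module.Flat R A] (d : ℕ) :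
    ∀ (M : Type) [AddCommGroup M] [Module R M], HasProjectiveDimensionLE (ModuleCat.of R M) d →
      HasProjectiveDimensionLE (ModuleCat.of A (A ⊗[R] M)) d := by
  induction d with
  | zero =>
    intro M _ _ h
    simp only [HasProjectiveDimensionLE, zero_add] at h ⊢
    rw [← projective_iff_hasProjectiveDimensionLT_one, ← IsProjective.iff_projective] at h ⊢
    have : Module.Projective R M := h
    change Module.Projective A (A ⊗[R] M)
    infer_instance
  | succ d ih =>
    intro M _ _ h
    obtain ⟨F, _, _, hF, g, hg⟩ : ∃ (F : Type) (_ : AddCommGroup F) (_ : Module R F)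
        (_ : Module.Projective R F) (g : F →ₗ[R] M), Function.Surjective g :=
      ⟨M →₀ R, inferInstance, inferInstance, inferInstance,
        Finsupp.linearCombination R (id : M → M), fun m => ⟨Finsupp.single m 1, by
          rw [Finsupp.linearCombination_single, one_smul]
          rfl⟩⟩
    refine step R A d (LinearMap.ker g) F M (LinearMap.ker g).subtype g
      (LinearMap.ker g).injective_subtype hg ?_ hF (ih _) h
    intro x
    constructor
    · intro hx
      exact ⟨⟨x, hx⟩, rfl⟩
    · rintro ⟨y, rfl⟩
      exact y.2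

section

variable (R : Type) [CommRing R] (M : Type) [AddCommGroup M] [Module R M] [Module R[X] M]
  [IsScalarTower R R[X] M]

/-- multiplication by `X` on `M` -/
def xm : M →ₗ[R] M := LinearMap.restrictScalars R (LinearMap.lsmul R[X] M (X : R[X]))

theorem xm_apply (m : M) : xm R M m = (X : R[X]) • m := rfl

/-- `a ⊗ m ↦ X a ⊗ m - a ⊗ X m` -/
def f1 : R[X] ⊗[R] M →ₗ[R[X]] R[X] ⊗[R] M :=
  LinearMap.lsmul R[X] _ (X : R[X]) - (xm R M).baseChange R[X]

theorem f1_tmul (a : R[X]) (m : M) : f1 R M (a ⊗ₜ m) = (X * a) ⊗ₜ m - a ⊗ₜ[R] ((X : R[X]) • m) := by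
  unfold f1
  rw [LinearMap.sub_apply, LinearMap.baseChange_tmul, xm_apply]
  rfl

/-- `a ⊗ m ↦ a m` -/
def g1 : R[X] ⊗[R] M →ₗ[R[X]] M := LinearMap.liftBaseChange R[X] (LinearMap.id : M →ₗ[R] M)

theorem g1_tmul (a : R[X]) (m : M) : g1 R M (a ⊗ₜ m) = a • m := by
  unfold g1
  rw [LinearMap.liftBaseChange_tmul]
  rfl

/-- the values of the left inverse of `f1` -/
def hh : R[X] →ₗ[R] M →ₗ[R] R[X] ⊗[R] M :=
  (Polynomial.basisMonomials R).constr R (fun i => ∑ j ∈ Finset.range i,
    (TensorProduct.mk R R[X] M (monomial j 1)) ∘ₗ (xm R M) ^ (i - 1 - j))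

/-- the left inverse of `f1` -/
def h1 : R[X] ⊗[R] M →ₗ[R] R[X] ⊗[R] M := TensorProduct.lift (hh R M)

theorem h1_tmul (n : ℕ) (m : M) : h1 R M ((monomial n (1 : R)) ⊗ₜ m) =
    ∑ j ∈ Finset.range n, (monomial j (1 : R)) ⊗ₜ[R] (((xm R M) ^ (n - 1 - j)) m) := by
  unfold h1
  rw [TensorProduct.lift.tmul]
  have h2 : hh R M (monomial n (1 : R)) = ∑ j ∈ Finset.range n,
    (TensorProduct.mk R R[X] M (monomial j 1)) ∘ₗ (xm R M) ^ (n - 1 - j) := by
    unfold hh
    have h3 := (Polynomial.basisMonomials R).constr_basis R (fun i => ∑ j ∈ Finset.range i,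
      (TensorProduct.mk R R[X] M (monomial j 1)) ∘ₗ (xm R M) ^ (i - 1 - j)) n
    rw [Polynomial.coe_basisMonomials] at h3
    exact h3
  rw [h2, LinearMap.sum_apply]
  rfl

theorem h1_f1 (t : R[X] ⊗[R] M) : h1 R M (f1 R M t) = t := by
  induction t with
  | zero => rw [map_zero, map_zero]
  | add x y hx hy => rw [map_add, map_add, hx, hy]
  | tmul a m =>
    induction a using Polynomial.induction_on' generalizing m with
    | add p q hp hq => rw [TensorProduct.add_tmul, map_add, map_add, hp, hq]
    | monomial n c =>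
      have h2 : (monomial n c : R[X]) = c • monomial n (1 : R) := by
        rw [Polynomial.smul_monomial, smul_eq_mul, mul_one]
      rw [h2, TensorProduct.smul_tmul]
      generalize c • m = m'
      rw [f1_tmul, map_sub, Polynomial.X_mul_monomial, h1_tmul, h1_tmul, Finset.sum_range_succ,
        Nat.add_sub_cancel, Nat.sub_self, pow_zero]
      have h3 : ∑ x ∈ Finset.range n, (monomial x (1 : R)) ⊗ₜ[R] (((xm R M) ^ (n - x)) m') =
          ∑ x ∈ Finset.range n, (monomial x (1 : R)) ⊗ₜ[R]
            (((xm R M) ^ (n - 1 - x)) ((X : R[X]) • m')) := by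
        refine Finset.sum_congr rfl fun x hx => ?_
        rw [Finset.mem_range] at hx
        rw [show n - x = n - 1 - x + 1 by omega, pow_succ]
        rfl
      rw [h3, add_sub_cancel_left]
      rfl

theorem exact1 : Function.Exact (f1 R M) (g1 R M) := by
  have key : ∀ t : R[X] ⊗[R] M, ∃ s, t - (1 : R[X]) ⊗ₜ[R] (g1 R M t) = f1 R M s := by
    intro t
    induction t with
    | zero => exact ⟨0, by rw [map_zero, TensorProduct.tmul_zero, map_zero, sub_zero]⟩
    | add x y hx hy =>
      obtain ⟨s, hs⟩ := hx
      obtain ⟨s', hs'⟩ := hy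
      refine ⟨s + s', ?_⟩
      rw [map_add, map_add, ← hs, ← hs', TensorProduct.tmul_add]
      abel
    | tmul a m =>
      induction a using Polynomial.induction_on' generalizing m with
      | add p q hp hq =>
        obtain ⟨s, hs⟩ := hp m
        obtain ⟨s', hs'⟩ := hq m
        refine ⟨s + s', ?_⟩
        rw [TensorProduct.add_tmul, map_add, map_add, ← hs, ← hs', TensorProduct.tmul_add]
        abel
      | monomial n c =>
        have h2 : (monomial n c : R[X]) = c • monomial n (1 : R) := by
          rw [Polynomial.smul_monomial, smul_eq_mul, mul_one]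
        rw [h2, TensorProduct.smul_tmul]
        generalize c • m = m'
        clear h2
        induction n generalizing m' with
        | zero =>
          refine ⟨0, ?_⟩
          rw [map_zero, g1_tmul, Polynomial.monomial_zero_one, one_smul, sub_self]
        | succ n ih =>
          obtain ⟨s, hs⟩ := ih ((X : R[X]) • m')
          refine ⟨s + (monomial n (1 : R)) ⊗ₜ m', ?_⟩
          rw [map_add, ← hs, f1_tmul, g1_tmul, g1_tmul, Polynomial.X_mul_monomial, smul_smul,
            Polynomial.monomial_mul_X]
          abel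
  intro t
  constructor
  · intro ht
    obtain ⟨s, hs⟩ := key t
    rw [ht, TensorProduct.tmul_zero, sub_zero] at hs
    exact ⟨s, hs.symm⟩
  · rintro ⟨s, rfl⟩
    induction s with
    | zero => rw [map_zero, map_zero]
    | add x y hx hy => rw [map_add, map_add, hx, hy, add_zero]
    | tmul a m =>
      rw [f1_tmul, map_sub, g1_tmul, g1_tmul, smul_smul, mul_comm, sub_self]

end

end

end Pool.AM.GD_

namespace Pool.AM

open CategoryTheory TensorProduct Polynomial

theorem stmt_GD : Stmt_GD := by
  intro R _ d h M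
  let _ : Module R M := Module.compHom M (algebraMap R R[X])
  have hst : IsScalarTower R R[X] M := IsScalarTower.of_algebraMap_smul fun r m => rfl
  have hbc := GD_.bc R R[X] d M (h (ModuleCat.of R M))
  have hzero : (GD_.g1 R M).comp (GD_.f1 R M) = 0 := by
    refine LinearMap.ext fun t => ?_
    exact (GD_.exact1 R M _).2 ⟨_, rfl⟩
  have hT : (ModuleCat.shortComplexOfCompEqZero (GD_.f1 R M) (GD_.g1 R M) hzero).ShortExact :=
    ModuleCat.shortComplex_shortExact _ (GD_.exact1 R M)
      (Function.LeftInverse.injective (GD_.h1_f1 R M))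
      (fun m => ⟨(1 : R[X]) ⊗ₜ m, by
        change GD_.g1 R M _ = m
        rw [GD_.g1_tmul, one_smul]⟩)
  have hbc' : HasProjectiveDimensionLT (ModuleCat.of R[X] (R[X] ⊗[R] M)) (d + 1) := hbc
  have hbc2 : HasProjectiveDimensionLT (ModuleCat.of R[X] (R[X] ⊗[R] M)) (d + 1 + 1) :=
    hasProjectiveDimensionLT_of_ge _ (d + 1) _ (by omega)
  exact hT.hasProjectiveDimensionLT_X₃ (d + 1) hbc' hbc2

end Pool.AM
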