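import Pool.Agent.Work.MP_91aed7_am.Interface

/-!
# TL: laws for `T`
-/

set_option autoImplicit false

namespace Pool.AM.TL_

open Polynomial

noncomputable section

variable {R : Type} [CommRing R]

theorem Mt_mul {ι κ : Type} [Fintype ι] [DecidableEq ι] [Fintype κ] [DecidableEq κ]
    (A : Matrix ι κ R) (B : Matrix κ ι R) :
    Mt (A * B) = 1 + A.map C * ((X : R[X]) • B.map C) ∧
      Mt (A * B) = 1 + ((X : R[X]) • A.map C) * B.map C := by
  constructor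
  · rw [Matrix.mul_smul, Mt, Matrix.map_mul]
  · rw [Matrix.smul_mul, Mt, Matrix.map_mul]

variable {P : Type} [AddCommGroup P] [Module R P]

theorem indep (hS : Stmt_SE) {ν : P →ₗ[R] P} {ι κ : Type} [Fintype ι] [DecidableEq ι] [Fintype κ]
    [DecidableEq κ] (i : P →ₗ[R] (ι → R)) (r : (ι → R) →ₗ[R] P) (h : r ∘ₗ i = LinearMap.id)
    (i' : P →ₗ[R] (κ → R)) (r' : (κ → R) →ₗ[R] P) (h' : r' ∘ₗ i' = LinearMap.id)
    (hs : SE (Mt (LinearMap.toMatrix' (i ∘ₗ ν ∘ₗ r)))) :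
    SE (Mt (LinearMap.toMatrix' (i' ∘ₗ ν ∘ₗ r'))) := by
  set A : Matrix ι κ R := LinearMap.toMatrix' (i ∘ₗ r') with hA
  set B : Matrix κ ι R := LinearMap.toMatrix' (i' ∘ₗ ν ∘ₗ r) with hB
  have h1 : LinearMap.toMatrix' (i ∘ₗ ν ∘ₗ r) = A * B := by
    rw [hA, hB, ← LinearMap.toMatrix'_comp]
    congr 1
    refine LinearMap.ext fun v => ?_
    change i (ν (r v)) = i (r' (i' (ν (r v))))
    have : r' (i' (ν (r v))) = ν (r v) := LinearMap.congr_fun h' (ν (r v))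
    rw [this]
  have h2 : LinearMap.toMatrix' (i' ∘ₗ ν ∘ₗ r') = B * A := by
    rw [hA, hB, ← LinearMap.toMatrix'_comp]
    congr 1
    refine LinearMap.ext fun v => ?_
    change i' (ν (r' v)) = i' (ν (r (i (r' v))))
    have : r (i (r' v)) = r' v := LinearMap.congr_fun h (r' v)
    rw [this]
  rw [h1, (Mt_mul A B).1] at hs
  rw [h2, (Mt_mul B A).2]
  exact hS.swap _ _ hs

theorem T_iff (hS : Stmt_SE) (ν : P →ₗ[R] P) {ι : Type} [Fintype ι] [DecidableEq ι]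
    (i : P →ₗ[R] (ι → R)) (r : (ι → R) →ₗ[R] P) (h : r ∘ₗ i = LinearMap.id) :
    T R P ν ↔ SE (Mt (LinearMap.toMatrix' (i ∘ₗ ν ∘ₗ r))) := by
  constructor
  · rintro ⟨n, i', r', h', hs⟩
    exact indep hS i' r' h' i r h hs
  · intro hs
    let e : (ι → R) ≃ₗ[R] (Fin (Fintype.card ι) → R) :=
      LinearEquiv.funCongrLeft R R (Fintype.equivFin ι).symm
    have h' : (r ∘ₗ e.symm.toLinearMap) ∘ₗ (e.toLinearMap ∘ₗ i) = LinearMap.id := by
      rw [← h]
      ext v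
      simp
    exact ⟨_, e.toLinearMap ∘ₗ i, r ∘ₗ e.symm.toLinearMap, h', indep hS i r h _ _ h' hs⟩

theorem exists_ret {ν : P →ₗ[R] P} (hT : T R P ν) :
    ∃ (n : ℕ) (i : P →ₗ[R] (Fin n → R)) (r : (Fin n → R) →ₗ[R] P), r ∘ₗ i = LinearMap.id := by
  obtain ⟨n, i, r, h, -⟩ := hT
  exact ⟨n, i, r, h⟩

theorem exists_ret' (h1 : Module.Finite R P) (h2 : Module.Projective R P) :
    ∃ (n : ℕ) (i : P →ₗ[R] (Fin n → R)) (r : (Fin n → R) →ₗ[R] P), r ∘ₗ i = LinearMap.id := by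
  obtain ⟨n, f, hf⟩ := Module.Finite.exists_fin' R P
  obtain ⟨s, hs⟩ := Module.projective_lifting_property f LinearMap.id hf
  exact ⟨n, s, f, hs⟩

theorem proj {ν : P →ₗ[R] P} (hT : T R P ν) : Module.Finite R P ∧ Module.Projective R P := by
  obtain ⟨n, i, r, h⟩ := exists_ret hT
  refine ⟨Module.Finite.of_surjective r ?_, Module.Projective.of_split i r h⟩
  intro v
  exact ⟨i v, LinearMap.congr_fun h v⟩

theorem Mt_fromBlocks {ι κ : Type} [Fintype ι] [DecidableEq ι] [Fintype κ] [DecidableEq κ]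
    (A : Matrix ι ι R) (Y : Matrix ι κ R) (D : Matrix κ κ R) :
    Mt (Matrix.fromBlocks A Y 0 D) =
      Matrix.fromBlocks (Mt A) ((X : R[X]) • Y.map C) 0 (Mt D) := by
  unfold Mt
  rw [Matrix.fromBlocks_map, Matrix.fromBlocks_smul, ← Matrix.fromBlocks_one,
    Matrix.fromBlocks_add]
  simp

variable {P' P'' : Type} [AddCommGroup P'] [Module R P'] [AddCommGroup P''] [Module R P'']

/-- splitting -/
theorem split {ν' : P' →ₗ[R] P'} {ν : P →ₗ[R] P} {ν'' : P'' →ₗ[R] P''} {j : P' →ₗ[R] P}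
    {q : P →ₗ[R] P''} (hE : Ex ν' ν ν'' j q) (hp : Module.Projective R P'') :
    ∃ (s : P'' →ₗ[R] P) (ρ : P →ₗ[R] P'), (∀ x, q (s x) = x) ∧ (∀ v, j (ρ v) = v - s (q v)) ∧
      (∀ x, ρ (j x) = x) := by
  obtain ⟨s, hs⟩ := Module.projective_lifting_property q LinearMap.id hE.sur
  have hs' : ∀ x, q (s x) = x := fun x => LinearMap.congr_fun hs x
  let e : P' ≃ₗ[R] LinearMap.range j := LinearEquiv.ofInjective j hE.inj
  have hmem : ∀ v, (LinearMap.id - s ∘ₗ q : P →ₗ[R] P) v ∈ LinearMap.range j := by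
    intro v
    rw [hE.exa, LinearMap.mem_ker]
    simp [hs']
  refine ⟨s, e.symm.toLinearMap ∘ₗ (LinearMap.codRestrict _ (LinearMap.id - s ∘ₗ q) hmem), hs',
    ?_, ?_⟩
  · intro v
    have h1 : j (e.symm (LinearMap.codRestrict _ (LinearMap.id - s ∘ₗ q) hmem v)) =
        (e (e.symm (LinearMap.codRestrict _ (LinearMap.id - s ∘ₗ q) hmem v)) : P) := rfl
    change j (e.symm (LinearMap.codRestrict _ (LinearMap.id - s ∘ₗ q) hmem v)) = _
    rw [h1, LinearEquiv.apply_symm_apply]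
    rfl
  · intro x
    apply hE.inj
    have h1 : j (e.symm (LinearMap.codRestrict _ (LinearMap.id - s ∘ₗ q) hmem (j x))) =
        (e (e.symm (LinearMap.codRestrict _ (LinearMap.id - s ∘ₗ q) hmem (j x))) : P) := rfl
    change j (e.symm (LinearMap.codRestrict _ (LinearMap.id - s ∘ₗ q) hmem (j x))) = _
    rw [h1, LinearEquiv.apply_symm_apply]
    change j x - s (q (j x)) = j x
    have h2 : q (j x) = 0 := by
      rw [← LinearMap.mem_ker, ← hE.exa]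
      exact ⟨x, rfl⟩
    rw [h2, map_zero, sub_zero]

theorem tri {ν' : P' →ₗ[R] P'} {ν : P →ₗ[R] P} {ν'' : P'' →ₗ[R] P''} {j : P' →ₗ[R] P}
    {q : P →ₗ[R] P''} (hE : Ex ν' ν ν'' j q) (s : P'' →ₗ[R] P) (ρ : P →ₗ[R] P')
    (h1 : ∀ x, q (s x) = x) (h2 : ∀ v, j (ρ v) = v - s (q v)) (h3 : ∀ x, ρ (j x) = x)
    {n' n'' : ℕ} (i' : P' →ₗ[R] (Fin n' → R)) (r' : (Fin n' → R) →ₗ[R] P')
    (h' : r' ∘ₗ i' = LinearMap.id) (i'' : P'' →ₗ[R] (Fin n'' → R))
    (r'' : (Fin n'' → R) →ₗ[R] P'') (h'' : r'' ∘ₗ i'' = LinearMap.id) :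
    ∃ (i : P →ₗ[R] (Fin n' ⊕ Fin n'' → R)) (r : (Fin n' ⊕ Fin n'' → R) →ₗ[R] P)
      (Y : Matrix (Fin n') (Fin n'') R), r ∘ₗ i = LinearMap.id ∧
      LinearMap.toMatrix' (i ∘ₗ ν ∘ₗ r) =
        Matrix.fromBlocks (LinearMap.toMatrix' (i' ∘ₗ ν' ∘ₗ r')) Y 0
          (LinearMap.toMatrix' (i'' ∘ₗ ν'' ∘ₗ r'')) := by
  let i : P →ₗ[R] (Fin n' ⊕ Fin n'' → R) :=
    { toFun := fun v => Sum.elim (i' (ρ v)) (i'' (q v))
      map_add' := by
        intro v w
        ext a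
        rcases a with a | a <;> simp
      map_smul' := by
        intro c v
        ext a
        rcases a with a | a <;> simp }
  let r : (Fin n' ⊕ Fin n'' → R) →ₗ[R] P :=
    j ∘ₗ r' ∘ₗ (LinearMap.funLeft R R Sum.inl) + s ∘ₗ r'' ∘ₗ (LinearMap.funLeft R R Sum.inr)
  have hr : ∀ w, r w = j (r' (w ∘ Sum.inl)) + s (r'' (w ∘ Sum.inr)) := fun w => rfl
  have hi : ∀ v, i v = Sum.elim (i' (ρ v)) (i'' (q v)) := fun v => rfl
  have hqj : ∀ x, q (j x) = 0 := by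
    intro x
    rw [← LinearMap.mem_ker, ← hE.exa]
    exact ⟨x, rfl⟩
  have hcj : ∀ x, ν (j x) = j (ν' x) := fun x => (LinearMap.congr_fun hE.cj x).symm
  have hcq : ∀ x, q (ν x) = ν'' (q x) := fun x => LinearMap.congr_fun hE.cq x
  refine ⟨i, r, LinearMap.toMatrix' (i' ∘ₗ ρ ∘ₗ ν ∘ₗ s ∘ₗ r''), ?_, ?_⟩
  · refine LinearMap.ext fun v => ?_
    change r (i v) = v
    rw [hr, hi]
    have e1 : r' ((Sum.elim (i' (ρ v)) (i'' (q v))) ∘ Sum.inl) = ρ v := by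
      rw [Sum.elim_comp_inl]
      exact LinearMap.congr_fun h' (ρ v)
    have e2 : r'' ((Sum.elim (i' (ρ v)) (i'' (q v))) ∘ Sum.inr) = q v := by
      rw [Sum.elim_comp_inr]
      exact LinearMap.congr_fun h'' (q v)
    rw [e1, e2, h2]
    abel
  · have sl : ∀ b : Fin n', r (Pi.single (Sum.inl b) 1) = j (r' (Pi.single b 1)) := by
      intro b
      rw [hr]
      have e1 : (Pi.single (Sum.inl b) (1 : R) : Fin n' ⊕ Fin n'' → R) ∘ Sum.inl =
          Pi.single b 1 := by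
        ext c
        by_cases hc : c = b
        · subst hc; simp
        · simp [hc]
      have e2 : (Pi.single (Sum.inl b) (1 : R) : Fin n' ⊕ Fin n'' → R) ∘ Sum.inr = 0 := by
        ext c
        simp
      rw [e1, e2, map_zero, map_zero, add_zero]
    have sr : ∀ b : Fin n'', r (Pi.single (Sum.inr b) 1) = s (r'' (Pi.single b 1)) := by
      intro b
      rw [hr]
      have e1 : (Pi.single (Sum.inr b) (1 : R) : Fin n' ⊕ Fin n'' → R) ∘ Sum.inr =
          Pi.single b 1 := by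
        ext c
        by_cases hc : c = b
        · subst hc; simp
        · simp [hc]
      have e2 : (Pi.single (Sum.inr b) (1 : R) : Fin n' ⊕ Fin n'' → R) ∘ Sum.inl = 0 := by
        ext c
        simp
      rw [e1, e2, map_zero, map_zero, zero_add]
    ext a b
    rcases a with a | a <;> rcases b with b | b
    · rw [Matrix.fromBlocks_apply₁₁, LinearMap.toMatrix'_apply, LinearMap.toMatrix'_apply]
      change i (ν (r (Pi.single (Sum.inl b) 1))) (Sum.inl a) = i' (ν' (r' (Pi.single b 1))) a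
      rw [sl, hi, hcj, h3]
      rfl
    · rw [Matrix.fromBlocks_apply₁₂, LinearMap.toMatrix'_apply, LinearMap.toMatrix'_apply]
      change i (ν (r (Pi.single (Sum.inr b) 1))) (Sum.inl a) = i' (ρ (ν (s (r'' (Pi.single b 1))))) a
      rw [sr, hi]
      rfl
    · rw [Matrix.fromBlocks_apply₂₁, LinearMap.toMatrix'_apply]
      change i (ν (r (Pi.single (Sum.inl b) 1))) (Sum.inr a) = 0
      rw [sl, hi, hcj, hqj, map_zero]
      rfl
    · rw [Matrix.fromBlocks_apply₂₂, LinearMap.toMatrix'_apply, LinearMap.toMatrix'_apply]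
      change i (ν (r (Pi.single (Sum.inr b) 1))) (Sum.inr a) = i'' (ν'' (r'' (Pi.single b 1))) a
      rw [sr, hi, hcq, h1]
      rfl

end

end Pool.AM.TL_

namespace Pool.AM

theorem stmt_TL (hS : Stmt_SE) : Stmt_TL := by
  intro R _
  constructor
  · intro P _ _ ν hT
    exact TL_.proj hT
  · intro P _ _ ν hT n i r h
    exact (TL_.T_iff hS ν i r h).1 hT
  · intro P _ _ h1 h2
    obtain ⟨n, i, r, h⟩ := TL_.exists_ret' h1 h2
    refine ⟨n, i, r, h, ?_⟩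
    have h3 : Mt (LinearMap.toMatrix' (i ∘ₗ (0 : P →ₗ[R] P) ∘ₗ r)) = 1 := by
      rw [LinearMap.zero_comp, LinearMap.comp_zero, map_zero]
      unfold Mt
      rw [Matrix.map_zero _ (map_zero _), smul_zero, add_zero]
    rw [h3]
    exact hS.of_EL (one_mem _)
  · intro P' P P'' _ _ _ _ _ _ ν' ν ν'' j q hE hT' hT''
    obtain ⟨s, ρ, h1, h2, h3⟩ := TL_.split hE (TL_.proj hT'').2
    obtain ⟨n', i', r', h'⟩ := TL_.exists_ret hT'
    obtain ⟨n'', i'', r'', h''⟩ := TL_.exists_ret hT''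
    obtain ⟨i, r, Y, h, hM⟩ := TL_.tri hE s ρ h1 h2 h3 i' r' h' i'' r'' h''
    rw [TL_.T_iff hS ν' i' r' h'] at hT'
    rw [TL_.T_iff hS ν'' i'' r'' h''] at hT''
    rw [TL_.T_iff hS ν i r h, hM, TL_.Mt_fromBlocks]
    exact (hS.tri_left _ hT').2 hT''
  · intro P' P P'' _ _ _ _ _ _ ν' ν ν'' j q hE hT hT''
    obtain ⟨s, ρ, h1, h2, h3⟩ := TL_.split hE (TL_.proj hT'').2
    obtain ⟨n', i0, r0, h0⟩ := TL_.exists_ret hT
    obtain ⟨n'', i'', r'', h''⟩ := TL_.exists_ret hT''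
    have h' : (ρ ∘ₗ r0) ∘ₗ (i0 ∘ₗ j) = LinearMap.id := by
      refine LinearMap.ext fun x => ?_
      change ρ (r0 (i0 (j x))) = x
      have : r0 (i0 (j x)) = j x := LinearMap.congr_fun h0 (j x)
      rw [this, h3]
    obtain ⟨i, r, Y, h, hM⟩ := TL_.tri hE s ρ h1 h2 h3 (i0 ∘ₗ j) (ρ ∘ₗ r0) h' i'' r'' h''
    rw [TL_.T_iff hS ν'' i'' r'' h''] at hT''
    rw [TL_.T_iff hS ν i r h, hM, TL_.Mt_fromBlocks] at hT
    rw [TL_.T_iff hS ν' _ _ h']
    exact (hS.tri_right _ hT'').1 hT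
  · intro P' P P'' _ _ _ _ _ _ ν' ν ν'' j q hE hT' hT hp
    have hfin : Module.Finite R P'' := by
      have := (TL_.proj hT).1
      exact Module.Finite.of_surjective q hE.sur
    obtain ⟨s, ρ, h1, h2, h3⟩ := TL_.split hE hp
    obtain ⟨n', i', r', h'⟩ := TL_.exists_ret hT'
    obtain ⟨n'', i'', r'', h''⟩ := TL_.exists_ret' hfin hp
    obtain ⟨i, r, Y, h, hM⟩ := TL_.tri hE s ρ h1 h2 h3 i' r' h' i'' r'' h''
    rw [TL_.T_iff hS ν' i' r' h'] at hT'
    rw [TL_.T_iff hS ν i r h, hM, TL_.Mt_fromBlocks] at hT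
    rw [TL_.T_iff hS ν'' i'' r'' h'']
    exact (hS.tri_left _ hT').1 hT

end Pool.AM
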